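import Pool.Agent.L7h4.SF.Stm

set_option autoImplicit false

/-! Project SF (helper4), part DVN: every homogeneous field of degree `d ≥ 4` is a sum of brackets with
the fields `x_j E` (Euler's identity). -/

namespace Pool.Agent.L7h70.SF

open MvPolynomial Pool.Helper89.Rev Pool.Agent.L7h57.RV Pool.Agent.L7h4.SF

theorem lfE_single {n : ℕ} (j i : Fin n) :
    (lfE (Pi.single j (1 : ℂ)) : VF n) i = X j * X i := by
  classical
  unfold lfE
  congr 1
  rw [Finset.sum_eq_single j]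
  · simp
  · intro k _ hk
    rw [Pi.single_eq_of_ne hk, C_0, zero_mul]
  · intro h; exact absurd (Finset.mem_univ j) h

theorem pderiv_lfE {n : ℕ} (j i k : Fin n) :
    pderiv k ((lfE (Pi.single j (1 : ℂ)) : VF n) i) =
      (if k = j then X i else 0) + (if k = i then X j else 0) := by
  classical
  rw [lfE_single, Derivation.leibniz, pderiv_X, pderiv_X]
  simp only [Pi.single_apply, smul_eq_mul, mul_ite, mul_one, mul_zero]
  by_cases h1 : k = j <;> by_cases h2 : k = i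
  · rw [if_pos h1, if_pos h2, if_pos h2.symm, if_pos h1.symm, add_comm]
  · rw [if_pos h1, if_neg h2, if_neg (fun h => h2 h.symm), if_pos h1.symm, add_comm]
  · rw [if_neg h1, if_pos h2, if_pos h2.symm, if_neg (fun h => h1 h.symm), add_comm]
  · rw [if_neg h1, if_neg h2, if_neg (fun h => h2 h.symm), if_neg (fun h => h1 h.symm), add_comm]

theorem br_single {n : ℕ} (j : Fin n) (e : ℕ) (D : VF n) (hD : HomT e D) (i : Fin n) :
    br (lfE (Pi.single j 1)) D i =
      D j * X i + X j * D i - (e : MvPolynomial (Fin n) ℂ) * (X j * D i) := by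
  classical
  have h2 : ∑ k, X k * pderiv k (D i) = (e : MvPolynomial (Fin n) ℂ) * D i := by
    rw [(hD i).sum_X_mul_pderiv, nsmul_eq_mul]
  have h3 : ∑ k, ((if k = j then (X i : MvPolynomial (Fin n) ℂ) else 0) +
      (if k = i then X j else 0)) * D k = D j * X i + X j * D i := by
    simp only [add_mul, ite_mul, zero_mul]
    rw [Finset.sum_add_distrib, Finset.sum_ite_eq' Finset.univ j, Finset.sum_ite_eq' Finset.univ i,
      if_pos (Finset.mem_univ _), if_pos (Finset.mem_univ _)]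
    ring
  show ∑ k, (pderiv k ((lfE (Pi.single j (1 : ℂ)) : VF n) i) * D k -
    pderiv k (D i) * (lfE (Pi.single j (1 : ℂ)) : VF n) k) = _
  rw [Finset.sum_sub_distrib]
  congr 1
  · rw [← h3]
    exact Finset.sum_congr rfl fun k _ => by rw [pderiv_lfE]
  · have h4 : (e : MvPolynomial (Fin n) ℂ) * (X j * D i) = X j * ∑ k, X k * pderiv k (D i) := by
      rw [h2]; ring
    rw [h4, Finset.mul_sum]
    exact Finset.sum_congr rfl fun k _ => by rw [lfE_single]; ring

theorem s_DVN : S_DVN := by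
  classical
  intro n d hd w hw
  have hd0 : (d : ℂ) ≠ 0 := by
    have : d ≠ 0 := by omega
    exact_mod_cast this
  have hd1 : (d : ℂ) - 1 ≠ 0 := by
    intro h
    have h1 : (d : ℂ) = ((1 : ℕ) : ℂ) := by push_cast; linear_combination h
    have h2 : d = 1 := by exact_mod_cast h1
    omega
  have hd2 : (d : ℂ) - 2 ≠ 0 := by
    intro h
    have h1 : (d : ℂ) = ((2 : ℕ) : ℂ) := by push_cast; linear_combination h
    have h2 : d = 2 := by exact_mod_cast h1
    omega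
  have hd3 : (d : ℂ) - 3 ≠ 0 := by
    intro h
    have h1 : (d : ℂ) = ((3 : ℕ) : ℂ) := by push_cast; linear_combination h
    have h2 : d = 3 := by exact_mod_cast h1
    omega
  obtain ⟨u, hu⟩ : ∃ u : Fin n → VF n, ∀ j i, u j i = C ((d : ℂ)⁻¹) * pderiv j (w i) :=
    ⟨_, fun _ _ => rfl⟩
  have huh : ∀ j i, (u j i).IsHomogeneous (d - 1) := by
    intro j i
    rw [hu]
    exact ((hw i).pderiv).C_mul _
  have hus : ∀ i, ∑ j, X j * u j i = w i := by
    intro i
    have h1 := (hw i).sum_X_mul_pderiv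
    have h2 : ∑ j, X j * u j i = C ((d : ℂ)⁻¹) * ∑ j, X j * pderiv j (w i) := by
      rw [Finset.mul_sum]
      exact Finset.sum_congr rfl fun j _ => by rw [hu]; ring
    rw [h2, h1, nsmul_eq_mul, ← mul_assoc]
    have h3 : C ((d : ℂ)⁻¹) * (d : MvPolynomial (Fin n) ℂ) = 1 := by
      have h4 : (d : MvPolynomial (Fin n) ℂ) = C (d : ℂ) := (map_natCast C d).symm
      rw [h4, ← C_mul, inv_mul_cancel₀ hd0, C_1]
    rw [h3, one_mul]
  obtain ⟨q, hq⟩ : ∃ q : MvPolynomial (Fin n) ℂ, q = C (((d : ℂ) - 2)⁻¹) * ∑ j, u j j := ⟨_, rfl⟩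
  have hqh : q.IsHomogeneous (d - 1) := by
    rw [hq]
    exact (IsHomogeneous.sum _ _ _ fun j _ => huh j j).C_mul _
  obtain ⟨h, hh⟩ : ∃ h : Fin n → MvPolynomial (Fin n) ℂ,
      ∀ j, h j = C (((d : ℂ) - 1)⁻¹) * pderiv j q := ⟨_, fun _ => rfl⟩
  have hhh : ∀ j, (h j).IsHomogeneous (d - 1 - 1) := by
    intro j
    rw [hh]
    exact (hqh.pderiv).C_mul _
  have hhs : ∑ j, X j * h j = q := by
    have h1 := hqh.sum_X_mul_pderiv
    have h2 : ∑ j, X j * h j = C (((d : ℂ) - 1)⁻¹) * ∑ j, X j * pderiv j q := by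
      rw [Finset.mul_sum]
      exact Finset.sum_congr rfl fun j _ => by rw [hh]; ring
    rw [h2, h1, nsmul_eq_mul, ← mul_assoc]
    have h3 : C (((d : ℂ) - 1)⁻¹) * ((d - 1 : ℕ) : MvPolynomial (Fin n) ℂ) = 1 := by
      have h4 : ((d - 1 : ℕ) : MvPolynomial (Fin n) ℂ) = C ((d : ℂ) - 1) := by
        rw [← map_natCast (C (σ := Fin n) (R := ℂ)) (d - 1), Nat.cast_sub (by omega), Nat.cast_one]
      rw [h4, ← C_mul, inv_mul_cancel₀ hd1, C_1]
    rw [h3, one_mul]
  obtain ⟨D, hD⟩ : ∃ D : Fin n → VF n, ∀ j i, D j i =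
      -(C (((d : ℂ) - 2)⁻¹) * u j i) - C (((d : ℂ) - 3)⁻¹) * (h j * X i) := ⟨_, fun _ _ => rfl⟩
  have hDh : ∀ j, HomT (d - 1) (D j) := by
    intro j i
    rw [hD]
    apply IsHomogeneous.sub
    · exact ((huh j i).C_mul _).neg
    · have h1 : (h j * X i).IsHomogeneous (d - 1 - 1 + 1) := (hhh j).mul (isHomogeneous_X _ _)
      have h2 : d - 1 - 1 + 1 = d - 1 := by omega
      rw [h2] at h1
      exact h1.C_mul _
  refine ⟨D, hDh, ?_⟩
  funext i
  rw [Finset.sum_apply]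
  have hcast : ((d - 1 : ℕ) : MvPolynomial (Fin n) ℂ) = C ((d : ℂ) - 2) + 1 := by
    rw [← map_natCast (C (σ := Fin n) (R := ℂ)) (d - 1), Nat.cast_sub (by omega), Nat.cast_one,
      ← C_1, ← C_add]
    congr 1
    ring
  have e1 : C (((d : ℂ) - 2)⁻¹) * C ((d : ℂ) - 2) = (1 : MvPolynomial (Fin n) ℂ) := by
    rw [← C_mul, inv_mul_cancel₀ hd2, C_1]
  have e2 : (C ((d : ℂ) - 2) - 1) * C (((d : ℂ) - 3)⁻¹) = (1 : MvPolynomial (Fin n) ℂ) := by
    rw [← C_1, ← C_sub, ← C_mul]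
    have : ((d : ℂ) - 2 - 1) * ((d : ℂ) - 3)⁻¹ = 1 := by
      have h5 : (d : ℂ) - 2 - 1 = d - 3 := by ring
      rw [h5, mul_inv_cancel₀ hd3]
    rw [this]
  have hmain : ∑ j, br (lfE (Pi.single j 1)) (D j) i =
      -(C (((d : ℂ) - 2)⁻¹) * ∑ j, u j j) * X i +
      ((C ((d : ℂ) - 2) - 1) * C (((d : ℂ) - 3)⁻¹)) * ((∑ j, X j * h j) * X i) +
      (C (((d : ℂ) - 2)⁻¹) * C ((d : ℂ) - 2)) * ∑ j, X j * u j i := by
    rw [Finset.mul_sum, Finset.mul_sum, ← Finset.sum_neg_distrib, Finset.sum_mul, Finset.sum_mul,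
      Finset.mul_sum, ← Finset.sum_add_distrib, ← Finset.sum_add_distrib]
    refine Finset.sum_congr rfl fun j _ => ?_
    rw [br_single j (d - 1) (D j) (hDh j) i, hcast, hD, hD]
    ring
  rw [hmain, e1, e2, hhs, hus, ← hq]
  ring

end Pool.Agent.L7h70.SF
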